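import Pool.Agent.Lib.MP_b5021c_nt.IfaceEV
import Pool.Agent.Lib.MP_b5021c_nt.B.H47.Apr

/-!
# Board b5, stage 3, row EV_APH: a drop at one load, no small non-pure factors at an adjacent one,
for a mean of modulus less than `1/√3`
-/

namespace Pool.Agent.B5.EV64

open scoped LaurentPolynomial

theorem aph (small : SmallS) (kmu : KmuS) (apa : ApaS) (apg : ApgS) (e2 : E2S) : AphS := by
  intro O _ _ _ _ P L _ _ _ _ _ phi D S i0 eta h c n G hfd hfull eta' hadj hv0 hmn hdrop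
  by_contra hne
  obtain ⟨l, hl⟩ := Finset.nonempty_iff_ne_empty.mpr hne
  have hl' : ¬ 1 < M ((G l).coeff 0) ∧ ¬ Pure phi S i0 (G l) := by
    classical
    unfold snp at hl
    exact (Finset.mem_filter.mp hl).2
  obtain ⟨b, j, e, hspt⟩ := (small O P L phi D S i0 eta h c n G hfd l hl'.1).2.2 hl'.2
  obtain ⟨mu, hmu0, hmu⟩ := kmu (Ker (co phi i0)) (supp (cl (co phi i0) S h eta' D)) hdrop
  obtain ⟨q0, U0, h1, h2, h3⟩ := apa O P L phi D S i0 eta h c n G hfd l b j e hspt hfull eta'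
    (H47.adj_ne hadj) hv0 mu hmu0 hmu
  exact apg O (D.coeff 0) (D.coeff S) (c * (G l).coeff 0) q0 U0 eta' eta hadj
    (e2 O P L phi D hfd.cc.dd hfd.cc.two).1 hmn h1 h2 h3

end Pool.Agent.B5.EV64
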